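import Mathlib

/-!
# The Lindelöf property and embeddings of function spaces

`{f : X → ℝ // Continuous f}`, with the topology inherited from the product `X → ℝ`, is `C_p(X)`.
We show: if `X` is Lindelöf, `Y` is completely regular and `C_p(Y)` is homeomorphic to a subspace
of `C_p(X)` (no linearity, no closedness, nothing about the image is assumed), then `Y` is Lindelöf.
In particular the Lindelöf property is preserved by mutual embeddings of function spaces, and by
homeomorphisms of function spaces.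
-/

set_option autoImplicit false

open Set Topology

namespace Pool.Agent.Results.MP_7f09f8_gt.AnyEmbedding

universe u v w

section main

variable {X : Type u} {Y : Type v} [TopologicalSpace X] [TopologicalSpace Y]

/-- evaluation is continuous on `C_p` -/
lemma continuous_ev (x : X) : Continuous fun f : {f : X → ℝ // Continuous f} => f.1 x :=
  (continuous_apply x).comp continuous_subtype_val

/-- a neighbourhood of a point of `C_p` contains all functions which agree with it on a suitable
finite set -/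
lemma exists_finset_agree {f : {f : Y → ℝ // Continuous f}}
    {O : Set {f : Y → ℝ // Continuous f}} (hO : O ∈ 𝓝 f) :
    ∃ K : Finset Y, ∀ h : {f : Y → ℝ // Continuous f}, (∀ y ∈ K, h.1 y = f.1 y) → h ∈ O := by
  rw [nhds_subtype_eq_comap, Filter.mem_comap] at hO
  obtain ⟨t, ht, htO⟩ := hO
  rw [nhds_pi, Filter.mem_pi] at ht
  obtain ⟨J, hJ, W, hW, hWt⟩ := ht
  refine ⟨hJ.toFinset, fun h hh => htO ?_⟩
  apply hWt
  intro y hy
  rw [hh y (by simpa using hy)]
  exact mem_of_mem_nhds (hW y)

/-- The core: a closing-off argument. -/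
lemma core [LindelofSpace X] {I : Type w} (g : I → Y → ℝ) (hg : ∀ i, Continuous (g i))
    (hg0 : ∀ i y, 0 ≤ g i y) (hcov : ∀ y, ∃ i, g i y ≠ 0)
    (T : {f : Y → ℝ // Continuous f} → {f : X → ℝ // Continuous f}) (hT : IsEmbedding T) :
    ∃ t : Set I, t.Countable ∧ ∀ y, ∃ i ∈ t, g i y ≠ 0 := by
  classical
  by_contra hcon
  push Not at hcon
  let E := {f : Y → ℝ // Continuous f}
  let o : E := ⟨fun _ => 0, continuous_const⟩
  -- the distance of `T f` from `T 0` at the point `p`
  let D : E → X → ℝ := fun f p => |(T f).1 p - (T o).1 p|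
  have hDp : ∀ f : E, Continuous (D f) := fun f => ((T f).2.sub (T o).2).abs
  have hDf : ∀ p : X, Continuous fun f : E => D f p := fun p =>
    (((continuous_ev p).comp hT.continuous).sub continuous_const).abs
  have hD0 : ∀ p, D o p = 0 := fun p => by simp [D]
  -- functions vanishing where some `g i`, `i ∈ W`, is large, and at infinity
  let E0 : Finset I → ℕ → Set E := fun W k => {f |
    (∀ y, (∃ i ∈ W, 1 / ((k : ℝ) + 1) ≤ g i y) → f.1 y = 0) ∧
      ∃ V' : Finset I, ∀ y, (∀ i ∈ V', g i y = 0) → f.1 y = 0}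
  let fs : Finset I → ℕ → E := fun W k =>
    ⟨fun z => ∏ i ∈ W, (1 - min 1 (((k : ℝ) + 1) * g i z)), by
      apply continuous_finsetProd
      intro i _
      have := hg i
      fun_prop⟩
  have hfs0 : ∀ (W : Finset I) (k : ℕ) (y : Y), (∃ i ∈ W, 1 / ((k : ℝ) + 1) ≤ g i y) →
      (fs W k).1 y = 0 := by
    rintro W k y ⟨i, hi, hiy⟩
    apply Finset.prod_eq_zero hi
    have hk : (0 : ℝ) < (k : ℝ) + 1 := by positivity
    have : 1 ≤ ((k : ℝ) + 1) * g i y := by
      rw [div_le_iff₀ hk] at hiy
      linarith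
    rw [min_eq_left this]
    ring
  have hfs1 : ∀ (W : Finset I) (k : ℕ) (y : Y), (∀ i ∈ W, g i y = 0) → (fs W k).1 y = 1 := by
    intro W k y hy
    apply Finset.prod_eq_one
    intro i hi
    simp [hy i hi]
  -- `fs W k` is a limit of functions from `E0 W k`
  have hcl : ∀ W k, fs W k ∈ closure (E0 W k) := by
    intro W k
    rw [mem_closure_iff_nhds]
    intro O hO
    obtain ⟨K, hK⟩ := exists_finset_agree hO
    choose iy hiy using hcov
    let h : Y → ℝ := fun z => ∏ y ∈ K, (1 - min 1 (g (iy y) z / g (iy y) y))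
    have hhc : Continuous h := by
      apply continuous_finsetProd
      intro y _
      have := hg (iy y)
      fun_prop
    refine ⟨⟨fun z => (fs W k).1 z * (1 - h z), (fs W k).2.mul (continuous_const.sub hhc)⟩,
      hK _ ?_, ?_, K.image iy, ?_⟩
    · intro y hy
      have : h y = 0 := by
        apply Finset.prod_eq_zero hy
        rw [div_self (hiy y)]
        simp
      simp [this]
    · intro y hy
      simp [hfs0 W k y hy]
    · intro y hy
      have : h y = 1 := by
        apply Finset.prod_eq_one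
        intro z hz
        have : g (iy z) y = 0 := hy _ (Finset.mem_image_of_mem iy hz)
        simp [this]
      simp [this]
  -- the countable sets of functions
  have hLin : ∀ (W : Finset I) (k j : ℕ), ∃ C : Set E, C.Countable ∧ C ⊆ E0 W k ∧
      ∀ p : X, D (fs W k) p < 1 / ((j : ℝ) + 1) ∨ ∃ f ∈ C, 1 / ((j : ℝ) + 1) / 2 < D f p := by
    intro W k j
    have hj : (0 : ℝ) < 1 / ((j : ℝ) + 1) := Nat.one_div_pos_of_nat
    let U : E0 W k → Set X := fun f => {p | D (fs W k) p < 1 / ((j : ℝ) + 1)} ∪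
      {p | 1 / ((j : ℝ) + 1) / 2 < D f.1 p}
    have hUo : ∀ f, IsOpen (U f) := fun f =>
      (isOpen_lt (hDp _) continuous_const).union (isOpen_lt continuous_const (hDp _))
    have ho : o ∈ E0 W k := ⟨fun _ _ => rfl, ∅, fun _ _ => rfl⟩
    have hUc : (Set.univ : Set X) ⊆ ⋃ f, U f := by
      intro p _
      rw [Set.mem_iUnion]
      by_contra hno
      push Not at hno
      have h1 : ∀ f ∈ E0 W k, D f p ≤ 1 / ((j : ℝ) + 1) / 2 := by
        intro f hf
        by_contra h2
        exact hno ⟨f, hf⟩ (Or.inr (not_le.1 h2))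
      have h2 : D (fs W k) p ≤ 1 / ((j : ℝ) + 1) / 2 :=
        closure_minimal (s := E0 W k) (t := {f : E | D f p ≤ 1 / ((j : ℝ) + 1) / 2}) h1
          (isClosed_le (hDf p) continuous_const) (hcl W k)
      exact hno ⟨o, ho⟩ (Or.inl (lt_of_le_of_lt h2 (half_lt_self hj)))
    obtain ⟨t, ht, htc⟩ := (isLindelof_univ (X := X)).elim_countable_subcover U hUo hUc
    refine ⟨insert o (Subtype.val '' t), (ht.image _).insert _, ?_, fun p => ?_⟩
    · rintro f (rfl | ⟨f, _, rfl⟩)
      · exact ho
      · exact f.2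
    · obtain ⟨f, hf, hfp⟩ := Set.mem_iUnion₂.1 (htc (Set.mem_univ p))
      rcases hfp with h | h
      · exact Or.inl h
      · exact Or.inr ⟨f, Or.inr ⟨f, hf, rfl⟩, h⟩
  choose C hCc hCs hCp using hLin
  have hV' : ∀ f : E, ∃ V' : Finset I, (∃ W k, f ∈ E0 W k) →
      ∀ y, (∀ i ∈ V', g i y = 0) → f.1 y = 0 := by
    intro f
    by_cases h : ∃ W k, f ∈ E0 W k
    · obtain ⟨W, k, h1, V', h2⟩ := h
      exact ⟨V', fun _ => h2⟩
    · exact ⟨∅, fun h' => absurd h' h⟩
  choose V' hV' using hV'
  let V0 : Finset I → ℕ → ℕ → Set I := fun W k j => ⋃ f ∈ C W k j, (V' f : Set I)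
  have hV0c : ∀ W k j, (V0 W k j).Countable := fun W k j =>
    (hCc W k j).biUnion fun f _ => Finset.countable_toSet _
  -- closing off
  let step : Set I → Set I := fun V =>
    V ∪ ⋃ (W : Finset I) (_ : (W : Set I) ⊆ V) (q : ℕ × ℕ), V0 W q.1 q.2
  let Vn : ℕ → Set I := fun n => step^[n] ∅
  have hstepc : ∀ V : Set I, V.Countable → (step V).Countable := by
    intro V hV
    refine hV.union ?_
    have hWc : {W : Finset I | (W : Set I) ⊆ V}.Countable := by
      have h1 := Set.countable_ofPred_finite_subset hV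
      refine Set.Countable.mono (s₂ := (fun W : Finset I => (W : Set I)) ⁻¹'
        {t : Set I | t.Finite ∧ t ⊆ V}) ?_ (h1.preimage_of_injOn ?_)
      · intro W hW
        exact ⟨W.finite_toSet, hW⟩
      · exact Finset.coe_injective.injOn
    have : (⋃ W ∈ {W : Finset I | (W : Set I) ⊆ V}, ⋃ q : ℕ × ℕ, V0 W q.1 q.2).Countable :=
      hWc.biUnion fun W _ => Set.countable_iUnion fun q => hV0c W q.1 q.2
    exact this
  have hVnc : ∀ n, (Vn n).Countable := by
    intro n
    induction n with
    | zero => exact Set.countable_empty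
    | succ n ih =>
      change (step^[n+1] ∅).Countable
      rw [Function.iterate_succ_apply']
      exact hstepc _ ih
  have hVnm : Monotone Vn := by
    apply monotone_nat_of_le_succ
    intro n
    change Vn n ⊆ step^[n+1] ∅
    rw [Function.iterate_succ_apply']
    exact Set.subset_union_left
  let V : Set I := ⋃ n, Vn n
  have hVc : V.Countable := Set.countable_iUnion hVnc
  have hVcl : ∀ (W : Finset I), (W : Set I) ⊆ V → ∀ k j, V0 W k j ⊆ V := by
    intro W hW k j
    have : ∃ n, (W : Set I) ⊆ Vn n := by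
      have h1 : ∀ i ∈ W, ∃ n, i ∈ Vn n := fun i hi => Set.mem_iUnion.1 (hW hi)
      choose! N hN using h1
      refine ⟨W.sup N, fun i hi => hVnm (Finset.le_sup (f := N) hi) (hN i hi)⟩
    obtain ⟨n, hn⟩ := this
    have h2 : V0 W k j ⊆ Vn (n+1) := by
      change V0 W k j ⊆ step^[n+1] ∅
      rw [Function.iterate_succ_apply']
      refine Set.Subset.trans ?_ Set.subset_union_right
      exact Set.subset_iUnion_of_subset W (Set.subset_iUnion_of_subset hn
        (Set.subset_iUnion (fun q : ℕ × ℕ => V0 W q.1 q.2) (k, j)))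
    exact h2.trans (Set.subset_iUnion _ _)
  -- a point where all `g i`, `i ∈ V`, vanish
  obtain ⟨y0, hy0⟩ := hcon V hVc
  -- finitely many points of `X` which control the value at `y0`
  obtain ⟨J, ε, hε, hctrl⟩ : ∃ (J : Finset X) (ε : ℝ), 0 < ε ∧
      ∀ f : E, (∀ x ∈ J, D f x < ε) → |f.1 y0| < 1 := by
    have hU : {f : E | |f.1 y0| < 1} ∈ 𝓝 o :=
      (isOpen_lt (continuous_ev y0).abs continuous_const).mem_nhds (by simp [o])
    rw [hT.nhds_eq_comap, Filter.mem_comap] at hU
    obtain ⟨t0, ht0, ht0U⟩ := hU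
    rw [nhds_subtype_eq_comap, Filter.mem_comap] at ht0
    obtain ⟨t, ht, htU⟩ := ht0
    rw [nhds_pi, Filter.mem_pi] at ht
    obtain ⟨J, hJ, W, hW, hWt⟩ := ht
    have : ∀ x, ∃ ε > 0, Metric.ball ((T o).1 x) ε ⊆ W x := fun x => Metric.mem_nhds_iff.1 (hW x)
    choose e he heW using this
    obtain ⟨ε, hε, hεle⟩ : ∃ ε > 0, ∀ x ∈ hJ.toFinset, ε ≤ e x := by
      by_cases hne : hJ.toFinset.Nonempty
      · refine ⟨hJ.toFinset.inf' hne e, ?_, fun x hx => Finset.inf'_le _ hx⟩
        rw [gt_iff_lt, Finset.lt_inf'_iff]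
        exact fun x _ => he x
      · exact ⟨1, one_pos, fun x hx => (hne ⟨x, hx⟩).elim⟩
    refine ⟨hJ.toFinset, ε, hε, fun f hf => ?_⟩
    have : f ∈ T ⁻¹' t0 := by
      apply htU
      apply hWt
      intro x hx
      apply heW x
      rw [Metric.mem_ball, Real.dist_eq]
      exact (hf x (by simpa using hx)).trans_le (hεle x (by simpa using hx))
    exact ht0U this
  obtain ⟨j, hj⟩ := exists_nat_one_div_lt hε
  have hj0 : (0 : ℝ) < 1 / ((j : ℝ) + 1) := Nat.one_div_pos_of_nat
  -- a finite set of points of `Y` on which these finitely many functions depend near zero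
  obtain ⟨K, hK⟩ : ∃ K : Finset Y, ∀ h : E, (∀ y ∈ K, h.1 y = 0) →
      ∀ x ∈ J, D h x < 1 / ((j : ℝ) + 1) / 2 := by
    have hO : {h : E | ∀ x ∈ J, D h x < 1 / ((j : ℝ) + 1) / 2} ∈ 𝓝 o := by
      have : {h : E | ∀ x ∈ J, D h x < 1 / ((j : ℝ) + 1) / 2} =
          ⋂ x ∈ J, {h : E | D h x < 1 / ((j : ℝ) + 1) / 2} := by
        ext h; simp
      rw [this, Filter.biInter_finset_mem]
      intro x _
      refine (isOpen_lt (hDf x) continuous_const).mem_nhds ?_
      change D o x < _
      rw [hD0 x]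
      exact half_pos hj0
    obtain ⟨K, hK⟩ := exists_finset_agree hO
    exact ⟨K, fun h hh => hK h hh⟩
  -- find `W` and `k`
  have hmem : ∀ y : Y, ∃ i, (¬ ∀ i ∈ V, g i y = 0) → (i ∈ V ∧ g i y ≠ 0) := by
    intro y
    by_cases hy : ∀ i ∈ V, g i y = 0
    · obtain ⟨i, _⟩ := hcov y
      exact ⟨i, fun h => absurd hy h⟩
    · have hy' := hy
      push Not at hy'
      obtain ⟨i, hi, hi'⟩ := hy'
      exact ⟨i, fun _ => ⟨hi, hi'⟩⟩
  choose iy hiy using hmem
  let s := K.filter (fun y => ¬ ∀ i ∈ V, g i y = 0)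
  let W : Finset I := s.image iy
  have hWV : (W : Set I) ⊆ V := by
    intro i hi
    simp only [W, Finset.coe_image, Set.mem_image, Finset.mem_coe] at hi
    obtain ⟨y, hy, rfl⟩ := hi
    exact (hiy y (Finset.mem_filter.1 hy).2).1
  obtain ⟨k, hk⟩ : ∃ k : ℕ, ∀ y ∈ s, 1 / ((k : ℝ) + 1) ≤ g (iy y) y := by
    by_cases hne : s.Nonempty
    · obtain ⟨k, hk⟩ := exists_nat_one_div_lt (ε := s.inf' hne fun y => g (iy y) y) (by
        rw [Finset.lt_inf'_iff]
        intro y hy
        exact lt_of_le_of_ne (hg0 _ _) (Ne.symm (hiy y (Finset.mem_filter.1 hy).2).2))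
      exact ⟨k, fun y hy => hk.le.trans (Finset.inf'_le _ hy)⟩
    · exact ⟨0, fun y hy => (hne ⟨y, hy⟩).elim⟩
  -- all functions of `C W k j` vanish on `K`
  have hvan : ∀ f ∈ C W k j, ∀ y ∈ K, f.1 y = 0 := by
    intro f hf y hy
    by_cases hyV : ∀ i ∈ V, g i y = 0
    · apply hV' f ⟨W, k, hCs W k j hf⟩
      intro i hi
      apply hyV
      apply hVcl W hWV k j
      exact Set.mem_biUnion hf hi
    · have hys : y ∈ s := Finset.mem_filter.2 ⟨hy, hyV⟩
      exact (hCs W k j hf).1 y ⟨iy y, Finset.mem_image_of_mem _ hys, hk y hys⟩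
  have hfin : ∀ x ∈ J, D (fs W k) x < ε := by
    intro x hx
    rcases hCp W k j x with h | ⟨f, hf, h⟩
    · exact h.trans hj
    · exact absurd (hK f (hvan f hf) x hx) (not_lt.2 h.le)
  have h1 := hctrl (fs W k) hfin
  rw [hfs1 W k y0 (fun i hi => hy0 i (hWV hi))] at h1
  norm_num at h1

end main

/-- **Theorem.** Let `X` be a Lindelöf space and `Y` a completely regular space.  The type
`{f : X → ℝ // Continuous f}` with its subspace topology from the product `X → ℝ` is `C_p(X)`.
If some map `T : C_p(Y) → C_p(X)` is a homeomorphism onto its image, then `Y` is Lindelöf.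

Consequently (second part) if `X`, `Y` are Tychonoff, `X` is Lindelöf and each of `C_p(X)`,
`C_p(Y)` is homeomorphic to a subspace of the other, then `Y` is Lindelöf. -/
theorem result :
    (∀ (X : Type u) (Y : Type v) [TopologicalSpace X] [TopologicalSpace Y] [LindelofSpace X]
      [CompletelyRegularSpace Y]
      (T : {f : Y → ℝ // Continuous f} → {f : X → ℝ // Continuous f}),
      IsEmbedding T → LindelofSpace Y) ∧
    (∀ (X : Type u) (Y : Type v) [TopologicalSpace X] [TopologicalSpace Y] [T35Space X]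
      [T35Space Y] [LindelofSpace X],
      (∃ T : {f : Y → ℝ // Continuous f} → {f : X → ℝ // Continuous f}, IsEmbedding T) →
      (∃ S : {f : X → ℝ // Continuous f} → {f : Y → ℝ // Continuous f}, IsEmbedding S) →
      LindelofSpace Y) := by
  have key : ∀ (X : Type u) (Y : Type v) [TopologicalSpace X] [TopologicalSpace Y]
      [LindelofSpace X] [CompletelyRegularSpace Y]
      (T : {f : Y → ℝ // Continuous f} → {f : X → ℝ // Continuous f}),
      IsEmbedding T → LindelofSpace Y := by
    intro X Y _ _ _ _ T hT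
    refine ⟨isLindelof_of_countable_subcover ?_⟩
    intro ι U hU hcov
    have h1 : ∀ y : Y, ∃ i : ι, ∃ g : Y → ℝ, Continuous g ∧ (∀ z, 0 ≤ g z) ∧ g y ≠ 0 ∧
        ∀ z, g z ≠ 0 → z ∈ U i := by
      intro y
      obtain ⟨i, hi⟩ := Set.mem_iUnion.1 (hcov (Set.mem_univ y))
      obtain ⟨f, hf, hfy, hfK⟩ := CompletelyRegularSpace.completely_regular y (U i)ᶜ
        (hU i).isClosed_compl (by simpa using hi)
      refine ⟨i, fun z => 1 - (f z : ℝ), by fun_prop, fun z => ?_, ?_, fun z hz => ?_⟩
      · have := (f z).2.2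
        simpa using this
      · simp [hfy]
      · by_contra hzU
        have : f z = 1 := hfK hzU
        simp [this] at hz
    choose i g hgc hg0 hgy hgU using h1
    obtain ⟨t, ht, htc⟩ := core (X := X) g hgc hg0 (fun y => ⟨y, hgy y⟩) T hT
    refine ⟨i '' t, ht.image i, fun y _ => ?_⟩
    obtain ⟨z, hz, hzy⟩ := htc y
    rw [Set.mem_iUnion₂]
    exact ⟨i z, Set.mem_image_of_mem i hz, hgU z y hzy⟩
  refine ⟨key, ?_⟩
  rintro X Y _ _ _ _ _ ⟨T, hT⟩ _
  exact key X Y T hT

end Pool.Agent.Results.MP_7f09f8_gt.AnyEmbedding
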